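import Pool.Agent.Helper83.HM.NullTools

/-!
# Project HM, module T4: the fat kernel of a closed set of positive measure
-/

set_option autoImplicit false
set_option linter.unusedSectionVars false

namespace Pool.Agent.Helper33.HM

universe u

section T4

variable {B : Type u} [CompleteBooleanAlgebra B] {S : Set B}

private theorem h87le_append {T : List Bool → B} (hT : IsPr T) (σ τ : List Bool) :
    T (σ ++ τ) ≤ T σ := by
  induction τ generalizing σ with
  | nil => simp
  | cons c τ ih =>
    have h1 : σ ++ c :: τ = (σ ++ [c]) ++ τ := by simp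
    rw [h1]
    refine (ih (σ ++ [c])).trans ?_
    rw [hT σ]
    cases c
    · exact le_sup_left
    · exact le_sup_right

private theorem h87le_pre {T : List Bool → B} (hT : IsPr T) {σ τ : List Bool} (h : σ <+: τ) :
    T τ ≤ T σ := by
  obtain ⟨ρ, rfl⟩ := h
  exact h87le_append hT σ ρ

private theorem h87restr_nil (K : List Bool → B) : restr K [] = K := by
  funext τ
  unfold restr
  by_cases h : τ <+: []
  · rw [if_pos h]
    rw [List.prefix_nil] at h
    rw [h]
  · rw [if_neg h, if_pos (List.nil_prefix)]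

private theorem h87restr_of_pre {K : List Bool → B} {σ τ : List Bool} (h : τ <+: σ) :
    restr K σ τ = K σ := by
  unfold restr
  rw [if_pos h]

private theorem h87restr_of_ext {K : List Bool → B} {σ τ : List Bool} (h : σ <+: τ) :
    restr K σ τ = K τ := by
  unfold restr
  by_cases h1 : τ <+: σ
  · rw [if_pos h1, List.IsPrefix.eq_of_length_le h (h1.length_le)]
  · rw [if_neg h1, if_pos h]

private theorem h87restr_of_not {K : List Bool → B} {σ τ : List Bool} (h : ¬ τ <+: σ)
    (h' : ¬ σ <+: τ) : restr K σ τ = ⊥ := by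
  unfold restr
  rw [if_neg h, if_neg h']

private theorem h87restr_pr {K : List Bool → B} (hK : IsPr K) (σ : List Bool) :
    IsPr (restr K σ) := by
  intro ρ
  by_cases h1 : σ <+: ρ
  · rw [h87restr_of_ext h1, h87restr_of_ext (h1.trans (List.prefix_append _ _)),
      h87restr_of_ext (h1.trans (List.prefix_append _ _))]
    exact hK ρ
  · by_cases h2 : ρ <+: σ
    · obtain ⟨ν, rfl⟩ := h2
      cases ν with
      | nil => exact absurd (by simp) h1
      | cons b ν =>
        rw [h87restr_of_pre (List.prefix_append _ _)]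
        have key : ∀ c : Bool, restr K (ρ ++ b :: ν) (ρ ++ [c]) =
            if c = b then K (ρ ++ b :: ν) else ⊥ := by
          intro c
          split
          · rename_i hc
            subst hc
            apply h87restr_of_pre
            rw [List.prefix_append_right_inj]
            simp
          · rename_i hc
            apply h87restr_of_not
            · rw [List.prefix_append_right_inj]
              simp [hc]
            · rw [List.prefix_append_right_inj]
              intro h
              have h3 := (List.cons_prefix_cons.1 h).1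
              exact hc h3.symm
        rw [key, key]
        cases b <;> simp
    · rw [h87restr_of_not h2 h1]
      have key : ∀ c : Bool, restr K σ (ρ ++ [c]) = ⊥ := by
        intro c
        apply h87restr_of_not
        · exact fun h => h2 ((List.prefix_append _ _).trans h)
        · intro h
          rcases List.prefix_concat_iff.1 h with h | h
          · exact h2 (h ▸ List.prefix_append _ _)
          · exact h1 h
      rw [key, key, sup_idem]

private theorem h87restr_split {K : List Bool → B} (hK : IsPr K) (σ ρ : List Bool) :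
    restr K σ ρ = restr K (σ ++ [false]) ρ ⊔ restr K (σ ++ [true]) ρ := by
  by_cases h1 : ρ <+: σ
  · rw [h87restr_of_pre h1, h87restr_of_pre (h1.trans (List.prefix_append _ _)),
      h87restr_of_pre (h1.trans (List.prefix_append _ _))]
    exact hK σ
  · by_cases h2 : σ <+: ρ
    · obtain ⟨ν, rfl⟩ := h2
      cases ν with
      | nil => exact absurd (by simp) h1
      | cons b ν =>
        rw [h87restr_of_ext (List.prefix_append _ _)]
        have key : ∀ c : Bool, restr K (σ ++ [c]) (σ ++ b :: ν) =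
            if c = b then K (σ ++ b :: ν) else ⊥ := by
          intro c
          split
          · rename_i hc
            subst hc
            apply h87restr_of_ext
            rw [List.prefix_append_right_inj]
            simp
          · rename_i hc
            apply h87restr_of_not
            · rw [List.prefix_append_right_inj]
              intro h
              have h3 := (List.cons_prefix_cons.1 h).1
              exact hc h3.symm
            · rw [List.prefix_append_right_inj]
              simp [hc]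
        rw [key, key]
        cases b <;> simp
    · rw [h87restr_of_not h1 h2]
      have key : ∀ c : Bool, restr K (σ ++ [c]) ρ = ⊥ := by
        intro c
        apply h87restr_of_not
        · intro h
          rcases List.prefix_concat_iff.1 h with h | h
          · exact h2 (h ▸ List.prefix_append _ _)
          · exact h1 h
        · exact fun h => h2 ((List.prefix_append _ _).trans h)
      rw [key, key, sup_idem]

/-- the words of length `n` extending `σ` suffice -/
private theorem h87restr_le {K : List Bool → B} (hK : IsPr K) (j : ℕ) :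
    ∀ (σ ρ : List Bool), restr K σ ρ ≤
      ⨆ τ : List Bool, ⨆ _ : σ <+: τ ∧ τ.length = σ.length + j, restr K τ ρ := by
  induction j with
  | zero =>
    intro σ ρ
    exact le_iSup₂_of_le σ ⟨List.prefix_rfl, rfl⟩ le_rfl
  | succ j ih =>
    intro σ ρ
    rw [h87restr_split hK σ ρ]
    refine sup_le ?_ ?_
    · refine (ih _ ρ).trans ?_
      refine iSup₂_le fun τ hτ => le_iSup₂_of_le τ ⟨?_, ?_⟩ le_rfl
      · exact (List.prefix_append _ _).trans hτ.1
      · rw [hτ.2]
        simp
        omega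
    · refine (ih _ ρ).trans ?_
      refine iSup₂_le fun τ hτ => le_iSup₂_of_le τ ⟨?_, ?_⟩ le_rfl
      · exact (List.prefix_append _ _).trans hτ.1
      · rw [hτ.2]
        simp
        omega

/-- one more level -/
private theorem h87raise {T : List Bool → B} (hT : IsPr T) (k : ℕ) (j : ℕ) :
    ∀ (n : ℕ) (G : Finset (List Bool)), G.card * 2 ^ k ≤ 2 ^ n →
    ∃ G' : Finset (List Bool), G'.card * 2 ^ k ≤ 2 ^ (n + j) ∧
      (⨅ σ : List Bool, ⨅ _ : σ.length = n ∧ σ ∉ G, (T σ)ᶜ) ≤
        ⨅ σ : List Bool, ⨅ _ : σ.length = n + j ∧ σ ∉ G', (T σ)ᶜ := by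
  classical
  induction j with
  | zero => exact fun n G h => ⟨G, h, le_rfl⟩
  | succ j ih =>
    intro n G hG
    obtain ⟨G', h1, h2⟩ := ih n G hG
    refine ⟨G'.image (fun σ => σ ++ [false]) ∪ G'.image (fun σ => σ ++ [true]), ?_, ?_⟩
    · have h3 : (G'.image (fun σ => σ ++ [false]) ∪ G'.image (fun σ => σ ++ [true])).card ≤
          G'.card + G'.card :=
        (Finset.card_union_le _ _).trans (Nat.add_le_add Finset.card_image_le
          Finset.card_image_le)
      have h4 : 2 ^ (n + (j + 1)) = 2 ^ (n + j) + 2 ^ (n + j) := by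
        rw [← add_assoc, pow_succ]
        ring
      rw [h4]
      calc _ ≤ (G'.card + G'.card) * 2 ^ k := Nat.mul_le_mul_right _ h3
        _ = G'.card * 2 ^ k + G'.card * 2 ^ k := by ring
        _ ≤ _ := Nat.add_le_add h1 h1
    · refine h2.trans (le_iInf fun σ => le_iInf fun hσ => ?_)
      have hne : σ ≠ [] := by
        rintro rfl
        simp at hσ
      obtain ⟨τ, c, rfl⟩ : ∃ τ c, σ = τ ++ [c] :=
        ⟨σ.dropLast, σ.getLast hne, (List.dropLast_append_getLast hne).symm⟩
      have h5 : τ.length = n + j := by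
        have := hσ.1
        simp at this
        omega
      have h6 : τ ∉ G' := by
        intro h
        apply hσ.2
        rw [Finset.mem_union, Finset.mem_image, Finset.mem_image]
        cases c
        · exact Or.inl ⟨τ, h, rfl⟩
        · exact Or.inr ⟨τ, h, rfl⟩
      refine (iInf₂_le τ ⟨h5, h6⟩).trans ?_
      rw [compl_le_compl_iff_le]
      exact h87le_append hT τ [c]

private theorem h87small_sup {C Z : List Bool → B} (hC : IsPr C) (hZ : IsPr Z) (k : ℕ) :
    smallV (k + 1) C ⊓ smallV (k + 1) Z ≤ smallV k (fun σ => C σ ⊔ Z σ) := by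
  classical
  have key : ∀ (n₁ : ℕ) (G₁ : Finset (List Bool)) (_ : G₁.card * 2 ^ (k + 1) ≤ 2 ^ n₁) (n₂ : ℕ)
      (G₂ : Finset (List Bool)) (_ : G₂.card * 2 ^ (k + 1) ≤ 2 ^ n₂),
      (⨅ σ : List Bool, ⨅ _ : σ.length = n₁ ∧ σ ∉ G₁, (C σ)ᶜ) ⊓
        (⨅ σ : List Bool, ⨅ _ : σ.length = n₂ ∧ σ ∉ G₂, (Z σ)ᶜ) ≤
      smallV k (fun σ => C σ ⊔ Z σ) := by
    intro n₁ G₁ h₁ n₂ G₂ h₂
    obtain ⟨H₁, c₁, l₁⟩ := h87raise hC (k + 1) n₂ n₁ G₁ h₁
    obtain ⟨H₂, c₂, l₂⟩ := h87raise hZ (k + 1) n₁ n₂ G₂ h₂
    rw [add_comm n₂ n₁] at c₂ l₂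
    have hc : (H₁ ∪ H₂).card * 2 ^ k ≤ 2 ^ (n₁ + n₂) := by
      have h3 : (H₁ ∪ H₂).card ≤ H₁.card + H₂.card := Finset.card_union_le _ _
      have h4 : (H₁ ∪ H₂).card * 2 ^ k ≤ (H₁.card + H₂.card) * 2 ^ k :=
        Nat.mul_le_mul_right _ h3
      rw [pow_succ] at c₁ c₂
      nlinarith
    unfold smallV
    refine (inf_le_inf l₁ l₂).trans (le_iSup_of_le (n₁ + n₂)
      (le_iSup_of_le (H₁ ∪ H₂) (le_iSup_of_le hc ?_)))
    refine le_iInf fun σ => le_iInf fun hσ => ?_
    rw [compl_sup]
    have h5 : σ ∉ H₁ := fun h => hσ.2 (Finset.mem_union_left _ h)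
    have h6 : σ ∉ H₂ := fun h => hσ.2 (Finset.mem_union_right _ h)
    exact inf_le_inf (iInf₂_le σ ⟨hσ.1, h5⟩) (iInf₂_le σ ⟨hσ.1, h6⟩)
  have e1 : smallV (k + 1) C ⊓ smallV (k + 1) Z = ⨆ n₁ : ℕ, ⨆ G₁ : Finset (List Bool),
      ⨆ _ : G₁.card * 2 ^ (k + 1) ≤ 2 ^ n₁,
      (⨅ σ : List Bool, ⨅ _ : σ.length = n₁ ∧ σ ∉ G₁, (C σ)ᶜ) ⊓ smallV (k + 1) Z := by
    conv_lhs => rw [smallV]
    simp only [iSup_inf_eq]
  rw [e1]
  refine iSup_le fun n₁ => iSup_le fun G₁ => iSup_le fun h₁ => ?_
  conv_lhs => rw [smallV]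
  simp only [inf_iSup_eq]
  exact iSup_le fun n₂ => iSup_le fun G₂ => iSup_le fun h₂ => key n₁ G₁ h₁ n₂ G₂ h₂

private def h87words (m : ℕ) : Finset (List Bool) :=
  Finset.univ.image (List.ofFn : (Fin m → Bool) → List Bool)

private theorem h87mem_words {m : ℕ} {σ : List Bool} : σ ∈ h87words m ↔ σ.length = m := by
  constructor
  · intro h
    obtain ⟨f, -, rfl⟩ := Finset.mem_image.1 h
    simp
  · rintro rfl
    exact Finset.mem_image.2 ⟨σ.get, Finset.mem_univ _, List.ofFn_get σ⟩

private theorem h87pr_biSup {ι : Type} (R : Finset ι) (Z : ι → List Bool → B)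
    (hZ : ∀ i ∈ R, IsPr (Z i)) : IsPr (fun σ => ⨆ i ∈ R, Z i σ) := by
  intro σ
  simp only
  rw [← iSup_sup_eq]
  refine iSup_congr fun i => ?_
  rw [← iSup_sup_eq]
  exact iSup_congr fun hi => hZ i hi σ

private theorem h87pr_inf {T : List Bool → B} (hT : IsPr T) (e : B) :
    IsPr (fun σ => e ⊓ T σ) := by
  intro σ
  simp only
  rw [hT σ, inf_sup_left]

/-- the main step -/
private theorem h87main {K : List Bool → B} (hK : IsPr K) (σ : List Bool) (k j : ℕ)
    (G : Finset (List Bool)) (hG : G.card * 2 ^ (k + 1) ≤ 2 ^ (σ.length + j)) :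
    (⨅ τ : List Bool, ⨅ _ : τ.length = σ.length + j ∧ τ ∉ G,
      (restr (fun ρ => (nullV (restr K ρ))ᶜ) σ τ)ᶜ) ≤ smallV k (restr K σ) := by
  classical
  set e : B := ⨅ τ : List Bool, ⨅ _ : τ.length = σ.length + j ∧ τ ∉ G,
      (restr (fun ρ => (nullV (restr K ρ))ᶜ) σ τ)ᶜ with he
  set W : Finset (List Bool) :=
    (h87words (σ.length + j)).filter (fun τ => τ ∉ G ∧ σ <+: τ) with hW
  set G1 : Finset (List Bool) :=
    (h87words (σ.length + j)).filter (fun τ => τ ∈ G ∧ σ <+: τ) with hG1
  have heW : ∀ τ ∈ W, e ≤ nullV (restr K τ) := by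
    intro τ hτ
    rw [hW, Finset.mem_filter, h87mem_words] at hτ
    refine (iInf₂_le τ ⟨hτ.1, hτ.2.1⟩).trans ?_
    rw [h87restr_of_ext hτ.2.2, compl_compl]
  -- the null part
  have hZpr : ∀ τ ∈ W, IsPr (fun ρ => e ⊓ restr K τ ρ) ∧
      nullV (fun ρ => e ⊓ restr K τ ρ) = ⊤ := by
    intro τ hτ
    refine ⟨h87pr_inf (h87restr_pr hK τ) e, ?_⟩
    have h1 := nullV_ite e (restr K τ) (fun _ => (⊥ : B))
    rw [nullV_bot] at h1
    have h2 : (fun ρ => (e ⊓ restr K τ ρ) ⊔ (eᶜ ⊓ (⊥ : B))) = fun ρ => e ⊓ restr K τ ρ := by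
      funext ρ
      rw [inf_bot_eq, sup_bot_eq]
    rw [h2] at h1
    rw [h1, inf_eq_left.2 (heW τ hτ), inf_top_eq, sup_compl_eq_top]
  have hZ : nullV (fun ρ => ⨆ τ ∈ W, e ⊓ restr K τ ρ) = ⊤ :=
    nullV_iSup_finset W (fun τ ρ => e ⊓ restr K τ ρ) hZpr
  have hZ' : smallV (k + 1) (fun ρ => ⨆ τ ∈ W, e ⊓ restr K τ ρ) = ⊤ := by
    rw [nullV_eq] at hZ
    exact top_le_iff.1 (hZ ▸ iInf_le _ (k + 1))
  -- the small part
  have hD : smallV (k + 1) (fun ρ => ⨆ τ ∈ G1, restr K τ ρ) = ⊤ := by
    rw [eq_top_iff]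
    unfold smallV
    refine le_iSup_of_le (σ.length + j) (le_iSup_of_le G (le_iSup_of_le hG ?_))
    refine le_iInf fun ρ => le_iInf fun hρ => ?_
    rw [top_le_iff, compl_eq_top]
    refine le_bot_iff.1 (iSup₂_le fun τ hτ => ?_)
    rw [hG1, Finset.mem_filter, h87mem_words] at hτ
    have hne : τ ≠ ρ := fun h => hρ.2 (h ▸ hτ.2.1)
    rw [h87restr_of_not]
    · intro h
      exact hne (h.eq_of_length (by rw [hρ.1, hτ.1])).symm
    · intro h
      exact hne (h.eq_of_length (by rw [hρ.1, hτ.1]))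
  have hprD : IsPr (fun ρ => ⨆ τ ∈ G1, restr K τ ρ) :=
    h87pr_biSup G1 (fun τ ρ => restr K τ ρ) fun τ _ => h87restr_pr hK τ
  have hprZ : IsPr (fun ρ => ⨆ τ ∈ W, e ⊓ restr K τ ρ) :=
    h87pr_biSup W (fun τ ρ => e ⊓ restr K τ ρ) fun τ hτ => (hZpr τ hτ).1
  have hs := h87small_sup hprD hprZ k
  rw [hD, hZ', inf_top_eq] at hs
  have hsub : e ≤ subV (restr K σ)
      (fun ρ => (⨆ τ ∈ G1, restr K τ ρ) ⊔ ⨆ τ ∈ W, e ⊓ restr K τ ρ) := by
    rw [le_subV_iff]
    intro ρ
    refine (inf_le_inf_left e (h87restr_le hK j σ ρ)).trans ?_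
    rw [inf_iSup_eq]
    refine iSup_le fun τ => ?_
    rw [inf_iSup_eq]
    refine iSup_le fun hτ => ?_
    by_cases hg : τ ∈ G
    · refine le_sup_of_le_left (le_iSup₂_of_le τ ?_ inf_le_right)
      rw [hG1, Finset.mem_filter, h87mem_words]
      exact ⟨hτ.2, hg, hτ.1⟩
    · refine le_sup_of_le_right (le_iSup₂_of_le τ ?_ le_rfl)
      rw [hW, Finset.mem_filter, h87mem_words]
      exact ⟨hτ.2, hg, hτ.1⟩
  exact le_trans (le_inf hsub (le_top.trans hs)) (smallV_mono _ _ _)

theorem exists_fat_kernel (hS : IsSub S) {K : List Bool → B} (hK : ∀ σ, K σ ∈ S) (hpr : IsPr K)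
    (hpos : nullV K = ⊥) :
    ∃ P : List Bool → B, (∀ σ, P σ ∈ S) ∧ IsPr P ∧ fat P = ⊤ ∧ P [] = ⊤ ∧ ∀ σ, P σ ≤ K σ := by
  classical
  have hPpr : IsPr (fun σ => (nullV (restr K σ))ᶜ) := by
    intro σ
    simp only
    rw [← compl_inf]
    congr 1
    apply le_antisymm
    · refine le_inf ?_ ?_
      · refine le_trans (le_inf ?_ le_rfl) (nullV_mono _ (restr K σ))
        rw [le_subV_iff]
        intro ρ
        rw [h87restr_split hpr σ ρ]
        exact inf_le_right.trans le_sup_left
      · refine le_trans (le_inf ?_ le_rfl) (nullV_mono _ (restr K σ))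
        rw [le_subV_iff]
        intro ρ
        rw [h87restr_split hpr σ ρ]
        exact inf_le_right.trans le_sup_right
    · refine (nullV_sup (h87restr_pr hpr _) (h87restr_pr hpr _)).trans ?_
      have h1 : (fun ρ => restr K (σ ++ [false]) ρ ⊔ restr K (σ ++ [true]) ρ) =
          restr K σ := by
        funext ρ
        exact (h87restr_split hpr σ ρ).symm
      rw [h1]
  refine ⟨fun σ => (nullV (restr K σ))ᶜ, ?_, hPpr, ?_, ?_, ?_⟩
  · intro σ
    refine hS.compl_mem _ (nullV_mem hS fun τ => ?_)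
    unfold restr
    exact hS.ite_mem (hK _) (hS.ite_mem (hK _) hS.bot_mem)
  · unfold fat
    rw [pruned_eq_top_iff.2 hPpr, top_inf_eq, iInf_eq_top]
    intro σ
    rw [himp_eq_top_iff]
    simp only
    rw [compl_le_compl_iff_le, nullV_eq, nullV_eq]
    refine le_iInf fun k => (iInf_le _ (k + 1)).trans ?_
    conv_lhs => rw [smallV]
    refine iSup_le fun n => iSup_le fun G => iSup_le fun hG => ?_
    obtain ⟨G', h1, h2⟩ := h87raise (h87restr_pr hPpr σ) (k + 1) σ.length n G hG
    rw [add_comm n σ.length] at h1 h2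
    exact h2.trans (h87main hpr σ k n G' h1)
  · simp only
    rw [h87restr_nil, hpos, compl_bot]
  · intro σ
    simp only
    rw [← compl_le_compl_iff_le, compl_compl, nullV_eq]
    refine le_iInf fun k => ?_
    unfold smallV
    refine le_iSup_of_le 0 (le_iSup_of_le ∅ (le_iSup_of_le (by simp) ?_))
    refine le_iInf fun ρ => le_iInf fun hρ => ?_
    rw [compl_le_compl_iff_le]
    by_cases h1 : ρ <+: σ
    · rw [h87restr_of_pre h1]
    · by_cases h2 : σ <+: ρ
      · rw [h87restr_of_ext h2]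
        exact h87le_pre hpr h2
      · rw [h87restr_of_not h1 h2]
        exact bot_le

end T4

end Pool.Agent.Helper33.HM
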